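import Mathlib
import Pool.Agent.H57.Irr.Main
import Pool.Agent.H57.Irr.AbsorbCell
import Pool.Agent.H57.Irr.TreeCount

/-!
# A graph whose weak saturation limit is irrational

There is a graph `F` such that `wsat(n, F) / n` tends to an irrational number `w_F`. So the negated
form of the question holds: the weak saturation limit of a graph need not be rational.

The graph `F` is explicit, see `Pool.Agent.H57.Irr.FF`, and the limit is
`w_F = 49999999999994579960259870 / 10^13 - θ / (4 * 10^13)`, where `θ` is the sum of `2^(-i-j)` over
all `i, j ≥ 0` for which the binomial coefficient `C(i+j, i)` is odd, i.e.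
`θ = (1 + 1) (1 + 1/2) (1 + 1/8) (1 + 1/128) ⋯`, the product of all `1 + 2^(1 - 2^k)`, `k ≥ 0`.

Idea. The graph `F` contains one big clique and many copies of a gadget (a nearly complete graph on
`10^13` vertices) joined by small complete bipartite links. Optimal weakly saturated graphs consist
of gadgets (cells) arranged in the product of two binary trees; a cell carries a bit, which has to be
the sum modulo 2 of the bits of its children in the two tree directions (Pascal's triangle modulo 2),
and a cell with bit 1 saves one edge. The lower bound is proved with a potential function which is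
exact for such structures and gains a constant for every defect.
-/

set_option autoImplicit false

open Filter Topology

namespace Pool.Agent.Results.MP_e0d07f_co.IrrationalLimit

/-- The graph `G` on `n` vertices is weakly `F`-saturated: the edges of the complement of `G` can be
listed, without repetition, as `e 0, ..., e (m-1)` such that for each `i` the graph
`G + e 0 + ... + e i` contains a copy of `F` that uses the edge `e i`. -/
def WeaklySaturated {k n : ℕ} (F : SimpleGraph (Fin k)) (G : SimpleGraph (Fin n)) : Prop :=
  ∃ (m : ℕ) (e : Fin m → Sym2 (Fin n)), Function.Injective e ∧ Set.range e = Gᶜ.edgeSet ∧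
    ∀ i : Fin m, ∃ f : Fin k → Fin n, Function.Injective f ∧
      (∀ a b : Fin k, F.Adj a b → s(f a, f b) ∈ G.edgeSet ∪ e '' {j | j ≤ i}) ∧
      ∃ a b : Fin k, F.Adj a b ∧ s(f a, f b) = e i

/-- The number `wsat(n, F)`: the minimum number of edges of a weakly `F`-saturated graph on `n`
vertices. -/
noncomputable def wsat (n : ℕ) {k : ℕ} (F : SimpleGraph (Fin k)) : ℕ :=
  sInf {m | ∃ G : SimpleGraph (Fin n), WeaklySaturated F G ∧ G.edgeSet.ncard = m}

/-- There is a finite graph `F` with at least one edge and an irrational number `w` such that
`wsat(n, F) / n` tends to `w` as `n` tends to infinity. -/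
theorem result : ∃ (k : ℕ) (F : SimpleGraph (Fin k)) (w : ℝ), (∃ a b, F.Adj a b) ∧ Irrational w ∧
    Tendsto (fun n : ℕ => (wsat n F : ℝ) / n) atTop (𝓝 w) :=
  Pool.Agent.H57.Irr.final Pool.Agent.H57.Irr.absorbCell.1 Pool.Agent.H57.Irr.absorbCell.2
    Pool.Agent.H57.Irr.treeCount

end Pool.Agent.Results.MP_e0d07f_co.IrrationalLimit
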